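import Mathlib

/-!
A normal Carleman operator on `L²(a,b)` has a kernel which is square integrable in its first variable
for almost every value of the second variable.
-/

set_option autoImplicit false
open MeasureTheory ENNReal Filter
open scoped InnerProductSpace ComplexConjugate

namespace Pool.Agent.Results.MP_0ee9ff_an.NormalCarleman

/-- The complex Hilbert space `L²(μ)`. -/
abbrev L2Space {X : Type*} [MeasurableSpace X] (μ : Measure X) : Type _ := Lp ℂ 2 μ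

/-- Bounded linear operators on `L²(μ)`. -/
abbrev Op {X : Type*} [MeasurableSpace X] (μ : Measure X) : Type _ := L2Space μ →L[ℂ] L2Space μ

/-- `∫ |ν (x, y)|² dy` as a function of `x`. -/
noncomputable def sqIntSecond {X : Type*} [MeasurableSpace X] (μ : Measure X) (ν : X × X → ℂ)
    (x : X) : ℝ≥0∞ := ∫⁻ y, ‖ν (x, y)‖ₑ ^ 2 ∂μ

/-- `∫ |ν (x, y)|² dx` as a function of `y`. -/
noncomputable def sqIntFirst {X : Type*} [MeasurableSpace X] (μ : Measure X) (ν : X × X → ℂ)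
    (y : X) : ℝ≥0∞ := ∫⁻ x, ‖ν (x, y)‖ₑ ^ 2 ∂μ

/-- `∫ ν (x, y) f (y) dy` as a function of `x`. -/
noncomputable def applyKernel {X : Type*} [MeasurableSpace X] (μ : Measure X) (ν : X × X → ℂ)
    (f : L2Space μ) (x : X) : ℂ := ∫ y, ν (x, y) * f y ∂μ

/-- `N` is a Carleman operator on `L²(μ)` with kernel `ν`: the kernel is measurable, its sections
`y ↦ ν (x, y)` are square integrable for almost every `x`, and `N f (x) = ∫ ν (x, y) f (y) dy` for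
every `f ∈ L²(μ)` and almost every `x`. -/
def HasCarlemanKernel {X : Type*} [MeasurableSpace X] (μ : Measure X)
    (N : Op μ) (ν : X × X → ℂ) : Prop :=
  AEMeasurable ν (μ.prod μ) ∧ (∀ᵐ x ∂μ, sqIntSecond μ ν x < ∞) ∧
    ∀ f : L2Space μ, ∀ᵐ x ∂μ, N f x = applyKernel μ ν f x

/-- Lebesgue measure on the open interval `(a, b)`, where `a` and `b` may be infinite. -/
noncomputable def intervalMeasure (a b : EReal) : Measure ℝ :=
  (volume : Measure ℝ).restrict {x : ℝ | a < (x : EReal) ∧ (x : EReal) < b}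

section general

variable {E : Type*} [NormedAddCommGroup E] [InnerProductSpace ℂ E] {ι : Type*}

lemma parseval (b : HilbertBasis ι ℂ E) (x : E) : ∑' i, ‖⟪b i, x⟫_ℂ‖ₑ ^ 2 = ‖x‖ₑ ^ 2 := by
  have h := b.hasSum_inner_mul_inner x x
  have h2 : HasSum (fun i => ‖⟪b i, x⟫_ℂ‖ ^ 2) (‖x‖ ^ 2) := by
    have h3 := Complex.hasSum_re h
    have e1 : ∀ i, (⟪x, b i⟫_ℂ * ⟪b i, x⟫_ℂ).re = ‖⟪b i, x⟫_ℂ‖ ^ 2 := by
      intro i
      have : ⟪x, b i⟫_ℂ = conj ⟪b i, x⟫_ℂ := (inner_conj_symm _ _).symm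
      rw [this, ← Complex.normSq_eq_conj_mul_self, Complex.normSq_eq_norm_sq]
      norm_cast
    have e2 : (⟪x, x⟫_ℂ).re = ‖x‖ ^ 2 := by
      exact inner_self_eq_norm_sq (𝕜 := ℂ) x
    rw [e2] at h3
    simpa only [e1] using h3
  have h4 : ∀ i, ‖⟪b i, x⟫_ℂ‖ₑ ^ 2 = ENNReal.ofReal (‖⟪b i, x⟫_ℂ‖ ^ 2) := by
    intro i
    rw [ENNReal.ofReal_pow (norm_nonneg _), ofReal_norm]
  rw [tsum_congr h4, ← ENNReal.ofReal_tsum_of_nonneg (fun i => by positivity) h2.summable,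
    h2.tsum_eq, ENNReal.ofReal_pow (norm_nonneg _), ofReal_norm]

variable [CompleteSpace E]

lemma hs_adjoint (b : HilbertBasis ι ℂ E) (A : E →L[ℂ] E) :
    ∑' i, ‖A (b i)‖ₑ ^ 2 = ∑' i, ‖(ContinuousLinearMap.adjoint A) (b i)‖ₑ ^ 2 := by
  calc ∑' i, ‖A (b i)‖ₑ ^ 2 = ∑' i, ∑' j, ‖⟪b j, A (b i)⟫_ℂ‖ₑ ^ 2 := by
        refine tsum_congr fun i => ?_
        rw [parseval]
    _ = ∑' j, ∑' i, ‖⟪b j, A (b i)⟫_ℂ‖ₑ ^ 2 := ENNReal.tsum_comm
    _ = ∑' j, ‖(ContinuousLinearMap.adjoint A) (b j)‖ₑ ^ 2 := by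
        refine tsum_congr fun j => ?_
        rw [← parseval b]
        refine tsum_congr fun i => ?_
        rw [ContinuousLinearMap.adjoint_inner_right, ← inner_conj_symm, ← ofReal_norm, ← ofReal_norm,
          RCLike.norm_conj]

end general

section measure

variable {X : Type*} [MeasurableSpace X] {μ : Measure X}

/-- Multiplication by the indicator of a measurable set on `L²`, as a function. -/
noncomputable def indFun (μ : Measure X) (F : Set X) (hF : MeasurableSet F) (f : Lp ℂ 2 μ) :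
    Lp ℂ 2 μ :=
  MemLp.toLp (F.indicator f) (MemLp.indicator hF (Lp.memLp f))

lemma coe_indFun (F : Set X) (hF : MeasurableSet F) (f : Lp ℂ 2 μ) :
    (indFun μ F hF f : X → ℂ) =ᵐ[μ] F.indicator f :=
  MemLp.coeFn_toLp _

lemma indFun_add (F : Set X) (hF : MeasurableSet F) (f g : Lp ℂ 2 μ) :
    indFun μ F hF (f + g) = indFun μ F hF f + indFun μ F hF g := by
  apply Lp.ext
  filter_upwards [coe_indFun F hF (f + g), coe_indFun F hF f, coe_indFun F hF g,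
    Lp.coeFn_add (indFun μ F hF f) (indFun μ F hF g), Lp.coeFn_add f g] with x h1 h2 h3 h4 h5
  rw [h1, h4, Pi.add_apply, h2, h3]
  by_cases hx : x ∈ F
  · rw [Set.indicator_of_mem hx, Set.indicator_of_mem hx, Set.indicator_of_mem hx, h5]
    rfl
  · simp [hx]

lemma indFun_smul (F : Set X) (hF : MeasurableSet F) (c : ℂ) (f : Lp ℂ 2 μ) :
    indFun μ F hF (c • f) = c • indFun μ F hF f := by
  apply Lp.ext
  filter_upwards [coe_indFun F hF (c • f), coe_indFun F hF f,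
    Lp.coeFn_smul c (indFun μ F hF f), Lp.coeFn_smul c f] with x h1 h2 h4 h5
  rw [h1, h4, Pi.smul_apply, h2]
  by_cases hx : x ∈ F
  · simp [hx, h5]
  · simp [hx]

lemma norm_indFun_le (F : Set X) (hF : MeasurableSet F) (f : Lp ℂ 2 μ) :
    ‖indFun μ F hF f‖ ≤ 1 * ‖f‖ := by
  rw [one_mul]
  refine Lp.norm_le_norm_of_ae_le ?_
  filter_upwards [coe_indFun F hF f] with x h1
  rw [h1]
  exact norm_indicator_le_norm_self _ _

/-- Multiplication by the indicator of a measurable set on `L²`. -/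
noncomputable def ind (μ : Measure X) (F : Set X) (hF : MeasurableSet F) :
    Lp ℂ 2 μ →L[ℂ] Lp ℂ 2 μ :=
  LinearMap.mkContinuous
    { toFun := indFun μ F hF
      map_add' := indFun_add F hF
      map_smul' := indFun_smul F hF } 1 (norm_indFun_le F hF)

lemma coe_ind (F : Set X) (hF : MeasurableSet F) (f : Lp ℂ 2 μ) :
    (ind μ F hF f : X → ℂ) =ᵐ[μ] F.indicator f :=
  coe_indFun F hF f

lemma ind_inner (F : Set X) (hF : MeasurableSet F) (f g : Lp ℂ 2 μ) :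
    ⟪ind μ F hF f, g⟫_ℂ = ⟪f, ind μ F hF g⟫_ℂ := by
  rw [L2.inner_def, L2.inner_def]
  refine integral_congr_ae ?_
  filter_upwards [coe_ind F hF f, coe_ind F hF g] with x h1 h2
  rw [h1, h2]
  by_cases hx : x ∈ F <;> simp [hx]

lemma ind_adjoint (F : Set X) (hF : MeasurableSet F) :
    ContinuousLinearMap.adjoint (ind μ F hF) = ind μ F hF := by
  rw [eq_comm, ContinuousLinearMap.eq_adjoint_iff]
  intro f g
  exact ind_inner F hF f g

lemma enorm_sq (f : Lp ℂ 2 μ) : ‖f‖ₑ ^ 2 = ∫⁻ x, ‖f x‖ₑ ^ 2 ∂μ := by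
  rw [Lp.enorm_def, eLpNorm_eq_lintegral_rpow_enorm_toReal (by norm_num) (by norm_num)]
  simp only [ENNReal.toReal_ofNat, ENNReal.rpow_ofNat]
  rw [← ENNReal.rpow_natCast, ← ENNReal.rpow_mul]
  norm_num

variable {ι : Type*} [Countable ι]

lemma kernel_sum (b : HilbertBasis ι ℂ (Lp ℂ 2 μ)) (T : Lp ℂ 2 μ →L[ℂ] Lp ℂ 2 μ)
    (t : X × X → ℂ) (ht : Measurable t) (h1 : ∀ᵐ x ∂μ, ∫⁻ y, ‖t (x, y)‖ₑ ^ 2 ∂μ < ∞)
    (h2 : ∀ f : Lp ℂ 2 μ, ∀ᵐ x ∂μ, T f x = ∫ y, t (x, y) * f y ∂μ) :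
    ∑' i, ‖T (b i)‖ₑ ^ 2 = ∫⁻ x, ∫⁻ y, ‖t (x, y)‖ₑ ^ 2 ∂μ ∂μ := by
  have e1 : ∀ i, ‖T (b i)‖ₑ ^ 2 = ∫⁻ x, ‖(T (b i) : X → ℂ) x‖ₑ ^ 2 ∂μ := fun i => enorm_sq _
  rw [tsum_congr e1, ← lintegral_tsum]
  · refine lintegral_congr_ae ?_
    have h3 : ∀ᵐ x ∂μ, ∀ i, (T (b i) : X → ℂ) x = ∫ y, t (x, y) * (b i : X → ℂ) y ∂μ :=
      ae_all_iff.mpr fun i => h2 (b i)
    filter_upwards [h1, h3] with x hx1 hx3
    have hm : MemLp (fun y => conj (t (x, y))) 2 μ := by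
      refine ⟨?_, ?_⟩
      · exact (Complex.continuous_conj.measurable.comp
          (ht.comp (measurable_const.prodMk measurable_id))).aestronglyMeasurable
      · rw [eLpNorm_eq_lintegral_rpow_enorm_toReal (by norm_num) (by norm_num)]
        refine ENNReal.rpow_lt_top_of_nonneg (by positivity) ?_
        simpa using hx1.ne
    have h4 : ∀ i, ‖(T (b i) : X → ℂ) x‖ₑ ^ 2 = ‖⟪b i, hm.toLp _⟫_ℂ‖ₑ ^ 2 := by
      intro i
      congr 1
      rw [hx3 i, ← inner_conj_symm, L2.inner_def]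
      have : ∫ y, ⟪(hm.toLp _ : X → ℂ) y, (b i : X → ℂ) y⟫_ℂ ∂μ
          = ∫ y, t (x, y) * (b i : X → ℂ) y ∂μ := by
        refine integral_congr_ae ?_
        filter_upwards [hm.coeFn_toLp] with y hy
        rw [hy]
        simp [mul_comm]
      rw [this]
      simp [← ofReal_norm]
    rw [tsum_congr h4, parseval, enorm_sq]
    refine lintegral_congr_ae ?_
    filter_upwards [hm.coeFn_toLp] with y hy
    rw [hy]
    simp [← ofReal_norm]
  · intro i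
    exact ((Lp.aestronglyMeasurable (T (b i))).enorm).pow_const 2

end measure

section main

variable {X : Type*} [MeasurableSpace X] {μ : Measure X}

lemma exists_basis [TopologicalSpace.SeparableSpace (Lp ℂ 2 μ)] :
    ∃ (w : Set (Lp ℂ 2 μ)) (_ : HilbertBasis w ℂ (Lp ℂ 2 μ)), Countable w := by
  obtain ⟨w, b, hb⟩ := exists_hilbertBasis ℂ (Lp ℂ 2 μ)
  refine ⟨w, b, ?_⟩
  have ho := b.orthonormal
  refine Pairwise.countable_of_isOpen_disjoint (s := fun i : w => Metric.ball (b i) (1 / 2))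
    ?_ (fun i => Metric.isOpen_ball) (fun i => ⟨b i, Metric.mem_ball_self (by norm_num)⟩)
  intro i j hij
  refine Metric.ball_disjoint_ball ?_
  have h1 : ‖b i - b j‖ ^ 2 = 2 := by
    have := norm_sub_sq (𝕜 := ℂ) (b i) (b j)
    rw [this, ho.2 hij, ho.1 i, ho.1 j]
    norm_num
  rw [dist_eq_norm]
  nlinarith [norm_nonneg (b i - b j)]

theorem key_measurable [SigmaFinite μ] [TopologicalSpace.SeparableSpace (Lp ℂ 2 μ)]
    (N : Lp ℂ 2 μ →L[ℂ] Lp ℂ 2 μ) (ν : X × X → ℂ) (hm : Measurable ν)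
    (h1 : ∀ᵐ x ∂μ, ∫⁻ y, ‖ν (x, y)‖ₑ ^ 2 ∂μ < ∞)
    (h2 : ∀ f : Lp ℂ 2 μ, ∀ᵐ x ∂μ, N f x = ∫ y, ν (x, y) * f y ∂μ)
    (hN : IsStarNormal N) :
    (fun y => ∫⁻ x, ‖ν (x, y)‖ₑ ^ 2 ∂μ) =ᵐ[μ] (fun x => ∫⁻ y, ‖ν (x, y)‖ₑ ^ 2 ∂μ) := by
  obtain ⟨w, b, hw⟩ := exists_basis (μ := μ)
  have hme : Measurable fun p : X × X => ‖ν p‖ₑ ^ 2 := (hm.enorm).pow_const 2
  have hG : Measurable fun y => ∫⁻ x, ‖ν (x, y)‖ₑ ^ 2 ∂μ := hme.lintegral_prod_left'
  have hK : Measurable fun x => ∫⁻ y, ‖ν (x, y)‖ₑ ^ 2 ∂μ := hme.lintegral_prod_right'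
  refine ae_eq_of_forall_setLIntegral_eq_of_sigmaFinite hG hK ?_
  intro F hF _
  -- the operator `1_F N`
  have s1 : ∑' i, ‖(ind μ F hF ∘L N) (b i)‖ₑ ^ 2
      = ∫⁻ x, ∫⁻ y, ‖F.indicator (fun _ => (1 : ℂ)) x * ν (x, y)‖ₑ ^ 2 ∂μ ∂μ := by
    refine kernel_sum b (ind μ F hF ∘L N)
      (fun p => F.indicator (fun _ => (1 : ℂ)) p.1 * ν p) ?_ ?_ ?_
    · exact ((measurable_const.indicator hF).comp measurable_fst).mul hm
    · filter_upwards [h1] with x hx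
      by_cases hxF : x ∈ F
      · simpa [hxF] using hx
      · simp [hxF]
    · intro f
      filter_upwards [coe_ind F hF (N f), h2 f] with x e1 e2
      rw [ContinuousLinearMap.comp_apply, e1]
      by_cases hxF : x ∈ F
      · simp [hxF, e2]
      · simp [hxF]
  have s2 : ∑' i, ‖(N ∘L ind μ F hF) (b i)‖ₑ ^ 2
      = ∫⁻ x, ∫⁻ y, ‖ν (x, y) * F.indicator (fun _ => (1 : ℂ)) y‖ₑ ^ 2 ∂μ ∂μ := by
    refine kernel_sum b (N ∘L ind μ F hF)
      (fun p => ν p * F.indicator (fun _ => (1 : ℂ)) p.2) ?_ ?_ ?_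
    · exact hm.mul ((measurable_const.indicator hF).comp measurable_snd)
    · filter_upwards [h1] with x hx
      refine lt_of_le_of_lt (lintegral_mono fun y => ?_) hx
      by_cases hyF : y ∈ F <;> simp [hyF]
    · intro f
      filter_upwards [h2 (ind μ F hF f)] with x e2
      rw [ContinuousLinearMap.comp_apply, e2]
      refine integral_congr_ae ?_
      filter_upwards [coe_ind F hF f] with y hy
      rw [hy]
      by_cases hyF : y ∈ F <;> simp [hyF]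
  have hnorm := ContinuousLinearMap.isStarNormal_iff_norm_eq_adjoint.mp hN
  have s3 : ∑' i, ‖(N ∘L ind μ F hF) (b i)‖ₑ ^ 2 = ∑' i, ‖(ind μ F hF ∘L N) (b i)‖ₑ ^ 2 := by
    rw [hs_adjoint b (ind μ F hF ∘L N)]
    refine tsum_congr fun i => ?_
    rw [ContinuousLinearMap.adjoint_comp, ind_adjoint]
    simp only [ContinuousLinearMap.comp_apply]
    rw [← ofReal_norm, ← ofReal_norm, hnorm]
  have e1 : ∫⁻ x, ∫⁻ y, ‖F.indicator (fun _ => (1 : ℂ)) x * ν (x, y)‖ₑ ^ 2 ∂μ ∂μ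
      = ∫⁻ x in F, ∫⁻ y, ‖ν (x, y)‖ₑ ^ 2 ∂μ ∂μ := by
    rw [← lintegral_indicator hF]
    refine lintegral_congr fun x => ?_
    by_cases hx : x ∈ F <;> simp [hx]
  have e2 : ∫⁻ x, ∫⁻ y, ‖ν (x, y) * F.indicator (fun _ => (1 : ℂ)) y‖ₑ ^ 2 ∂μ ∂μ
      = ∫⁻ y in F, ∫⁻ x, ‖ν (x, y)‖ₑ ^ 2 ∂μ ∂μ := by
    rw [lintegral_lintegral_swap]
    · rw [← lintegral_indicator hF]
      refine lintegral_congr fun y => ?_
      by_cases hy : y ∈ F <;> simp [hy]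
    · exact ((hm.mul ((measurable_const.indicator hF).comp measurable_snd)).enorm.pow_const
        2).aemeasurable
  rw [← e1, ← e2, ← s1, ← s2, s3]

theorem key [SigmaFinite μ] [TopologicalSpace.SeparableSpace (Lp ℂ 2 μ)]
    (N : Lp ℂ 2 μ →L[ℂ] Lp ℂ 2 μ) (ν : X × X → ℂ) (h : HasCarlemanKernel μ N ν)
    (hN : IsStarNormal N) :
    ∀ᵐ y ∂μ, ∫⁻ x, ‖ν (x, y)‖ₑ ^ 2 ∂μ = ∫⁻ x, ‖ν (y, x)‖ₑ ^ 2 ∂μ ∧
      ∫⁻ x, ‖ν (x, y)‖ₑ ^ 2 ∂μ < ∞ := by
  obtain ⟨hm, h1, h2⟩ := h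
  simp only [sqIntSecond, applyKernel] at h1 h2
  obtain ⟨ν', hm', hν⟩ := hm
  have ha : ∀ᵐ x ∂μ, ∀ᵐ y ∂μ, ν (x, y) = ν' (x, y) := Measure.ae_ae_of_ae_prod hν
  have hb : ∀ᵐ y ∂μ, ∀ᵐ x ∂μ, ν (x, y) = ν' (x, y) := by
    have : ∀ᵐ p ∂(μ.prod μ), ν p.swap = ν' p.swap := by
      have := (Measure.measurePreserving_swap (μ := μ) (ν := μ)).quasiMeasurePreserving.ae hν
      exact this
    exact Measure.ae_ae_of_ae_prod this
  have h1' : ∀ᵐ x ∂μ, ∫⁻ y, ‖ν' (x, y)‖ₑ ^ 2 ∂μ < ∞ := by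
    filter_upwards [h1, ha] with x hx1 hx2
    refine lt_of_le_of_lt (le_of_eq ?_) hx1
    refine lintegral_congr_ae ?_
    filter_upwards [hx2] with y hy
    rw [hy]
  have h2' : ∀ f : Lp ℂ 2 μ, ∀ᵐ x ∂μ, N f x = ∫ y, ν' (x, y) * f y ∂μ := by
    intro f
    filter_upwards [h2 f, ha] with x hx1 hx2
    rw [hx1]
    refine integral_congr_ae ?_
    filter_upwards [hx2] with y hy
    rw [hy]
  have hk := key_measurable N ν' hm' h1' h2' hN
  filter_upwards [hk, h1, ha, hb] with y e1 e2 e3 e4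
  have f1 : ∫⁻ x, ‖ν (x, y)‖ₑ ^ 2 ∂μ = ∫⁻ x, ‖ν' (x, y)‖ₑ ^ 2 ∂μ := by
    refine lintegral_congr_ae ?_
    filter_upwards [e4] with x hx
    rw [hx]
  have f2 : ∫⁻ x, ‖ν (y, x)‖ₑ ^ 2 ∂μ = ∫⁻ x, ‖ν' (y, x)‖ₑ ^ 2 ∂μ := by
    refine lintegral_congr_ae ?_
    filter_upwards [e3] with x hx
    rw [hx]
  have f3 : ∫⁻ x, ‖ν (x, y)‖ₑ ^ 2 ∂μ = ∫⁻ x, ‖ν (y, x)‖ₑ ^ 2 ∂μ := by
    rw [f1, f2]
    exact e1
  exact ⟨f3, f3 ▸ e2⟩

end main

/-- For every interval `(a, b)`, every normal Carleman operator `N` on `L²(a, b)` and every kernel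
`ν` of `N`, for almost every `y` the section `x ↦ ν (x, y)` is square integrable; moreover its
integral equals that of the section `x ↦ ν (y, x)`. -/
theorem result (a b : EReal) (N : Op (intervalMeasure a b)) (ν : ℝ × ℝ → ℂ)
    (h : HasCarlemanKernel (intervalMeasure a b) N ν) (hN : IsStarNormal N) :
    ∀ᵐ y ∂(intervalMeasure a b),
      sqIntFirst (intervalMeasure a b) ν y = sqIntSecond (intervalMeasure a b) ν y ∧
      sqIntFirst (intervalMeasure a b) ν y < ∞ := by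
  have : SigmaFinite (intervalMeasure a b) := by
    unfold intervalMeasure
    infer_instance
  have : Fact ((2 : ℝ≥0∞) ≠ ∞) := ⟨by norm_num⟩
  have : TopologicalSpace.SeparableSpace (Lp ℂ 2 (intervalMeasure a b)) := by
    have : SecondCountableTopology (Lp ℂ 2 (intervalMeasure a b)) := inferInstance
    infer_instance
  exact key N ν h hN

end Pool.Agent.Results.MP_0ee9ff_an.NormalCarleman
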